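import Pool.Agent.Hhelper75.Star.Basic

/-!
# An automaton whose iterated maximal left star factorization takes `2 ^ r + 1` steps
-/

namespace Pool.Agent.EXS

/-- The letters: six special letters and the block letters `x p s y`. -/
inductive Lt (r : ℕ) where
  | G | H | A | B | E | D
  | x (p : Fin r) (s y : Bool)
  deriving DecidableEq, Fintype

/-- The states. -/
inductive St (r : ℕ) where
  | i | n | m1 | m2 | f | e | c1 | d0 | d1 | d2 | h1 | v0 | dead | snk
  | P0 (p : Fin r) | P1 (p : Fin r) | P2 (p : Fin r) | P3 (p : Fin r) | P4 (p : Fin r)
  | W (j : Fin (r + 1)) (b : Bool)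
  deriving DecidableEq, Fintype

open Lt St

variable {r : ℕ}

/-- The transitions of the initial state. -/
def likei : Lt r → St r
  | G => i
  | H => n
  | A => m1
  | B => v0
  | E => e
  | D => dead
  | x p true _ => P0 p
  | x _ false _ => dead

/-- The transition function. -/
def δ (q : St r) (a : Lt r) : St r :=
  match q with
  | i => likei a
  | n => match a with
    | G => dead
    | a => likei a
  | m1 => match a with
    | G => dead
    | B => m2
    | a => likei a
  | m2 => match a with
    | G => dead
    | E => c1
    | a => likei a
  | f => match a with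
    | G => dead
    | H => dead
    | a => likei a
  | e => match a with
    | x _ _ _ => e
    | D => d0
    | a => likei a
  | c1 => match a with
    | x _ _ _ => c1
    | D => f
    | _ => dead
  | d0 => match a with
    | A => d1
    | _ => dead
  | d1 => match a with
    | B => d2
    | _ => dead
  | d2 => match a with
    | E => h1
    | _ => dead
  | h1 => match a with
    | x _ _ _ => h1
    | D => f
    | _ => dead
  | v0 => match a with
    | E => W 0 true
    | _ => dead
  | dead => dead
  | snk => match a with
    | x _ _ _ => snk
    | D => f
    | _ => dead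
  | P0 p => match a with
    | x _ _ _ => P0 p
    | D => P1 p
    | _ => dead
  | P1 p => match a with
    | A => P2 p
    | _ => dead
  | P2 p => match a with
    | B => P3 p
    | _ => dead
  | P3 p => match a with
    | E => P4 p
    | _ => dead
  | P4 p => match a with
    | x p' _ y => if p' = p ∧ y = true then h1 else P4 p
    | _ => dead
  | W j b => match a with
    | x p s y => if j.val = p.val ∧ y = !(xor s b) then W p.succ (b && !s) else snk
    | D => if j.val = r ∧ b = false then dead else f
    | _ => dead

/-- The final states. -/
def fin : St r → Bool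
  | i => true
  | n => true
  | m1 => true
  | m2 => true
  | f => true
  | e => true
  | _ => false

/-- The automaton. -/
def M (r : ℕ) : DFA (Lt r) (St r) where
  step := δ
  start := i
  accept := {q | fin q = true}

/-- Acceptance from a state. -/
def acc : St r → List (Lt r) → Prop
  | q, [] => fin q = true
  | q, a :: w => acc (δ q a) w

theorem acc_nil (q : St r) : acc q [] ↔ fin q = true := Iff.rfl

theorem acc_cons (q : St r) (a : Lt r) (w : List (Lt r)) : acc q (a :: w) ↔ acc (δ q a) w := Iff.rfl

theorem acc_iff_evalFrom (q : St r) (w : List (Lt r)) :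
    acc q w ↔ (M r).evalFrom q w ∈ (M r).accept := by
  induction w generalizing q with
  | nil => rfl
  | cons a w ih => exact ih (δ q a)

theorem acc_append (q : St r) (u v : List (Lt r)) :
    acc q (u ++ v) ↔ acc (u.foldl δ q) v := by
  induction u generalizing q with
  | nil => rfl
  | cons a u ih => exact ih (δ q a)

theorem card_Lt (r : ℕ) : Fintype.card (Lt r) = 4 * r + 6 := by
  let g : Lt r ≃ Fin 6 ⊕ (Fin r × Bool × Bool) :=
    { toFun := fun a => match a with
        | G => Sum.inl 0
        | H => Sum.inl 1
        | A => Sum.inl 2
        | B => Sum.inl 3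
        | E => Sum.inl 4
        | D => Sum.inl 5
        | x p s y => Sum.inr (p, s, y)
      invFun := fun a => match a with
        | Sum.inl 0 => G
        | Sum.inl 1 => H
        | Sum.inl 2 => A
        | Sum.inl 3 => B
        | Sum.inl 4 => E
        | Sum.inl 5 => D
        | Sum.inr (p, s, y) => x p s y
      left_inv := by intro a; cases a <;> rfl
      right_inv := by
        intro a
        rcases a with a | a
        · fin_cases a <;> rfl
        · rfl }
  rw [Fintype.card_congr g]
  simp
  ring

theorem card_St (r : ℕ) : Fintype.card (St r) = 7 * r + 16 := by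
  let g : St r ≃ Fin 14 ⊕ (Fin r × Fin 5) ⊕ (Fin (r + 1) × Bool) :=
    { toFun := fun a => match a with
        | i => Sum.inl 0
        | n => Sum.inl 1
        | m1 => Sum.inl 2
        | m2 => Sum.inl 3
        | f => Sum.inl 4
        | e => Sum.inl 5
        | c1 => Sum.inl 6
        | d0 => Sum.inl 7
        | d1 => Sum.inl 8
        | d2 => Sum.inl 9
        | h1 => Sum.inl 10
        | v0 => Sum.inl 11
        | dead => Sum.inl 12
        | snk => Sum.inl 13
        | P0 p => Sum.inr (Sum.inl (p, 0))
        | P1 p => Sum.inr (Sum.inl (p, 1))
        | P2 p => Sum.inr (Sum.inl (p, 2))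
        | P3 p => Sum.inr (Sum.inl (p, 3))
        | P4 p => Sum.inr (Sum.inl (p, 4))
        | W j b => Sum.inr (Sum.inr (j, b))
      invFun := fun a => match a with
        | Sum.inl 0 => i
        | Sum.inl 1 => n
        | Sum.inl 2 => m1
        | Sum.inl 3 => m2
        | Sum.inl 4 => f
        | Sum.inl 5 => e
        | Sum.inl 6 => c1
        | Sum.inl 7 => d0
        | Sum.inl 8 => d1
        | Sum.inl 9 => d2
        | Sum.inl 10 => h1
        | Sum.inl 11 => v0
        | Sum.inl 12 => dead
        | Sum.inl 13 => snk
        | Sum.inr (Sum.inl (p, 0)) => P0 p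
        | Sum.inr (Sum.inl (p, 1)) => P1 p
        | Sum.inr (Sum.inl (p, 2)) => P2 p
        | Sum.inr (Sum.inl (p, 3)) => P3 p
        | Sum.inr (Sum.inl (p, 4)) => P4 p
        | Sum.inr (Sum.inr (j, b)) => W j b
      left_inv := by intro a; cases a <;> rfl
      right_inv := by
        intro a
        rcases a with a | ⟨p, a⟩ | a
        · fin_cases a <;> rfl
        · fin_cases a <;> rfl
        · rfl }
  rw [Fintype.card_congr g]
  simp
  ring

end Pool.Agent.EXS
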