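import Pool.Agent.Hhelper75.Star.Basic

/-!
# Passing to a two-letter alphabet
-/

namespace Pool.Agent.EXS

open Pool.Agent.Hhelper75.Star

section Bin

variable {α : Type} {m : ℕ} (e : α ≃ Fin m)

/-- The code word of a letter. -/
def cw (a : α) : List Bool := List.replicate (e a).val true ++ [false]

/-- The encoding of words. -/
def enc (w : List α) : List Bool := w.flatMap (cw e)

@[simp] theorem enc_nil : enc e [] = [] := rfl

theorem enc_cons (a : α) (w : List α) : enc e (a :: w) = cw e a ++ enc e w := rfl

theorem enc_append (u v : List α) : enc e (u ++ v) = enc e u ++ enc e v := List.flatMap_append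

theorem rep_inj : ∀ (k l : ℕ) (u v : List Bool),
    List.replicate k true ++ (false :: u) = List.replicate l true ++ (false :: v) →
      k = l ∧ u = v := by
  intro k
  induction k with
  | zero =>
    intro l u v h
    cases l with
    | zero => simpa using h
    | succ l => simp [List.replicate_succ] at h
  | succ k ih =>
    intro l u v h
    cases l with
    | zero => simp [List.replicate_succ] at h
    | succ l =>
      simp only [List.replicate_succ, List.cons_append, List.cons.injEq, true_and] at h
      obtain ⟨h1, h2⟩ := ih l u v h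
      exact ⟨by omega, h2⟩

theorem enc_injective : Function.Injective (enc e) := by
  intro u
  induction u with
  | nil =>
    intro v h
    cases v with
    | nil => rfl
    | cons a v => simp [enc_cons, cw] at h
  | cons a u ih =>
    intro v h
    cases v with
    | nil => simp [enc_cons, cw] at h
    | cons b v =>
      rw [enc_cons, enc_cons, cw, cw, List.append_assoc, List.append_assoc] at h
      obtain ⟨h1, h2⟩ := rep_inj _ _ _ _ h
      have h3 : a = b := e.injective (Fin.ext h1)
      rw [h3, ih h2]

theorem nil_mem_minTail {β : Type} {X : Set (List β)} (h : [] ∈ X) : [] ∈ minTail X := by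
  refine ⟨h, ?_⟩
  rintro ⟨s, hs, -, a, -, h⟩
  exact hs (List.append_eq_nil_iff.mp h).1

theorem leftStar_enc {X : Set (List α)} (h0 : [] ∈ X) :
    leftStar (enc e '' X) = enc e '' leftStar X := by
  ext s
  constructor
  · intro hs
    have h1 := hs [] ⟨[], h0, rfl⟩
    rw [List.append_nil] at h1
    obtain ⟨s', -, rfl⟩ := h1
    refine ⟨s', ?_, rfl⟩
    intro a ha
    obtain ⟨b, hb, h2⟩ := hs _ ⟨a, ha, rfl⟩
    rw [← enc_append] at h2
    rw [← enc_injective e h2]
    exact hb
  · rintro ⟨s, hs, rfl⟩ _ ⟨a, ha, rfl⟩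
    exact ⟨s ++ a, hs a ha, enc_append e s a⟩

theorem minTail_enc {X : Set (List α)} (h0 : [] ∈ X) :
    minTail (enc e '' X) = enc e '' minTail X := by
  ext w
  constructor
  · rintro ⟨⟨w, hw, rfl⟩, h⟩
    refine ⟨w, ⟨hw, ?_⟩, rfl⟩
    rintro ⟨s, hs0, hs, a, ha, rfl⟩
    apply h
    refine ⟨enc e s, ?_, ?_, enc e a, ⟨a, ha, rfl⟩, (enc_append e s a).symm⟩
    · intro hc
      exact hs0 (enc_injective e hc)
    · rw [leftStar_enc e h0]; exact ⟨s, hs, rfl⟩
  · rintro ⟨w, ⟨hw, h⟩, rfl⟩
    refine ⟨⟨w, hw, rfl⟩, ?_⟩
    rintro ⟨s, hs0, hs, _, ⟨a, ha, rfl⟩, h1⟩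
    rw [leftStar_enc e h0] at hs
    obtain ⟨s, hs, rfl⟩ := hs
    rw [← enc_append] at h1
    apply h
    refine ⟨s, ?_, hs, a, ha, enc_injective e h1⟩
    rintro rfl
    exact hs0 rfl

theorem iter_enc {X : Set (List α)} (h0 : [] ∈ X) (k : ℕ) :
    [] ∈ minTail^[k] X ∧ minTail^[k] (enc e '' X) = enc e '' (minTail^[k] X) := by
  induction k with
  | zero => exact ⟨h0, rfl⟩
  | succ k ih =>
    rw [Function.iterate_succ_apply', Function.iterate_succ_apply', ih.2, minTail_enc e ih.1]
    exact ⟨nil_mem_minTail ih.1, rfl⟩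

theorem leftStar_iter_enc {X : Set (List α)} (h0 : [] ∈ X) (k : ℕ) :
    leftStar (minTail^[k] (enc e '' X)) = {[]} ↔ leftStar (minTail^[k] X) = {[]} := by
  obtain ⟨h1, h2⟩ := iter_enc e h0 k
  rw [h2, leftStar_enc e h1]
  constructor
  · intro h
    ext s
    have h3 : enc e s ∈ enc e '' leftStar (minTail^[k] X) ↔ enc e s ∈ ({[]} : Set (List Bool)) := by
      rw [h]
    rw [(enc_injective e).mem_set_image, Set.mem_singleton_iff] at h3
    rw [h3, Set.mem_singleton_iff]
    constructor
    · intro h4; exact enc_injective e h4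
    · rintro rfl; rfl
  · intro h
    rw [h, Set.image_singleton]
    rfl

variable {σ : Type}

/-- The automaton reading code words. -/
def binDFA (M : DFA α σ) (hm : 0 < m) : DFA Bool (Option (σ × Fin m)) where
  step := fun q a => match q, a with
    | none, _ => none
    | some (q, k), true => if h : k.val + 1 < m then some (q, ⟨k.val + 1, h⟩) else none
    | some (q, k), false => some (M.step q (e.symm k), ⟨0, hm⟩)
  start := some (M.start, ⟨0, hm⟩)
  accept := {q | ∃ q' ∈ M.accept, q = some (q', ⟨0, hm⟩)}

variable (M : DFA α σ) (hm : 0 < m)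

theorem bin_none (u : List Bool) : (binDFA e M hm).evalFrom none u = none := by
  induction u with
  | nil => rfl
  | cons a u ih => exact ih

theorem bin_decode : ∀ (u : List Bool) (q : σ) (k : Fin m) (q' : σ),
    (binDFA e M hm).evalFrom (some (q, k)) u = some (q', ⟨0, hm⟩) →
      ∃ w, List.replicate k.val true ++ u = enc e w ∧ M.evalFrom q w = q' := by
  intro u
  induction u with
  | nil =>
    intro q k q' h
    simp only [DFA.evalFrom_nil, Option.some.injEq, Prod.mk.injEq] at h
    obtain ⟨rfl, rfl⟩ := h
    exact ⟨[], by simp, rfl⟩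
  | cons a u ih =>
    intro q k q' h
    rw [DFA.evalFrom_cons] at h
    cases a with
    | true =>
      by_cases hk : k.val + 1 < m
      · have hd : (binDFA e M hm).step (some (q, k)) true = some (q, ⟨k.val + 1, hk⟩) := dif_pos hk
        rw [hd] at h
        obtain ⟨w, h1, h2⟩ := ih _ _ _ h
        refine ⟨w, ?_, h2⟩
        rw [← h1, List.replicate_succ', List.append_assoc]
        rfl
      · have hd : (binDFA e M hm).step (some (q, k)) true = none := dif_neg hk
        rw [hd, bin_none] at h
        exact absurd h (by simp)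
    | false =>
      have hd : (binDFA e M hm).step (some (q, k)) false =
          some (M.step q (e.symm k), ⟨0, hm⟩) := rfl
      rw [hd] at h
      obtain ⟨w, h1, h2⟩ := ih _ _ _ h
      refine ⟨e.symm k :: w, ?_, h2⟩
      rw [enc_cons, ← h1, cw]
      simp

theorem bin_rep (q : σ) (j k : ℕ) (hjk : j + k < m) (u : List Bool) :
    (binDFA e M hm).evalFrom (some (q, ⟨j, by omega⟩)) (List.replicate k true ++ u) =
      (binDFA e M hm).evalFrom (some (q, ⟨j + k, hjk⟩)) u := by
  induction k generalizing j with
  | zero => rfl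
  | succ k ih =>
    rw [List.replicate_succ, List.cons_append, DFA.evalFrom_cons]
    have hd : (binDFA e M hm).step (some (q, ⟨j, by omega⟩)) true =
        some (q, ⟨j + 1, by omega⟩) := dif_pos (by show j + 1 < m; omega)
    rw [hd, ih (j + 1) (by omega)]
    congr 4
    omega

theorem bin_encode (w : List α) (q : σ) :
    (binDFA e M hm).evalFrom (some (q, ⟨0, hm⟩)) (enc e w) = some (M.evalFrom q w, ⟨0, hm⟩) := by
  induction w generalizing q with
  | nil => rfl
  | cons a w ih =>
    rw [enc_cons, cw, List.append_assoc, bin_rep e M hm q 0 (e a).val (by omega)]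
    simp only [List.cons_append, List.nil_append]
    rw [DFA.evalFrom_cons, DFA.evalFrom_cons]
    have hd : (binDFA e M hm).step (some (q, ⟨0 + (e a).val, by omega⟩)) false =
        some (M.step q a, ⟨0, hm⟩) := by
      show some (M.step q (e.symm _), _) = _
      congr 3
      have : (⟨0 + (e a).val, by omega⟩ : Fin m) = e a := Fin.ext (by simp)
      rw [this, Equiv.symm_apply_apply]
    rw [hd, ih]

theorem bin_accepts :
    {u | u ∈ (binDFA e M hm).accepts} = enc e '' {w | w ∈ M.accepts} := by
  ext u
  constructor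
  · rintro ⟨q', hq', h⟩
    obtain ⟨w, h1, h2⟩ := bin_decode e M hm u M.start ⟨0, hm⟩ q' h
    refine ⟨w, ?_, by simpa using h1.symm⟩
    show M.evalFrom M.start w ∈ M.accept
    rw [h2]; exact hq'
  · rintro ⟨w, hw, rfl⟩
    refine ⟨M.evalFrom M.start w, hw, ?_⟩
    exact bin_encode e M hm w M.start

end Bin

end Pool.Agent.EXS
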