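import Pool.Agent.EXS.Second

namespace Pool.Agent.EXS

open Lt St Pc Pool.Agent.Hhelper75.Star

variable {r : ℕ}

/-- The letter number `p` of the block word `w_t`. -/
def wl (t : ℕ) (p : Fin r) : Fin r × Bool × Bool := (p, t.testBit p.val, !(t - 1).testBit p.val)

/-- The block word `w_t`. -/
def wt (r t : ℕ) : Blk r := (List.finRange r).map (wl t)

/-- The bits of `t - 1`. -/
theorem bit_pred {t : ℕ} (ht : 1 ≤ t) (j : ℕ) :
    (t - 1).testBit j = xor (t.testBit j) (decide (t % 2 ^ j = 0)) := by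
  have hpos : 0 < 2 ^ j := Nat.two_pow_pos j
  have hdm := Nat.div_add_mod t (2 ^ j)
  rw [Nat.testBit_eq_decide_div_mod_eq, Nat.testBit_eq_decide_div_mod_eq]
  by_cases h0 : t % 2 ^ j = 0
  · have hq : 1 ≤ t / 2 ^ j := by
      by_contra hc
      have : t / 2 ^ j = 0 := Nat.lt_one_iff.mp (not_le.mp hc)
      rw [this, h0] at hdm
      omega
    have h1 : (t - 1) / 2 ^ j = t / 2 ^ j - 1 := by
      obtain ⟨q, hq'⟩ : ∃ q, t / 2 ^ j = q + 1 := ⟨t / 2 ^ j - 1, by omega⟩
      rw [hq', h0] at hdm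
      rw [hq']
      have : t - 1 = (2 ^ j - 1) + 2 ^ j * q := by
        have : 2 ^ j * (q + 1) = 2 ^ j * q + 2 ^ j := by ring
        omega
      rw [this, Nat.add_mul_div_left _ _ hpos, Nat.div_eq_of_lt (by omega)]
      omega
    rw [h1, h0]
    rcases Nat.mod_two_eq_zero_or_one (t / 2 ^ j) with h2 | h2
    · have h3 : (t / 2 ^ j - 1) % 2 = 1 := by omega
      simp [h2, h3]
    · have h3 : (t / 2 ^ j - 1) % 2 = 0 := by omega
      simp [h2, h3]
  · have h1 : (t - 1) / 2 ^ j = t / 2 ^ j := by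
      have : t - 1 = (t % 2 ^ j - 1) + 2 ^ j * (t / 2 ^ j) := by omega
      rw [this, Nat.add_mul_div_left _ _ hpos,
        Nat.div_eq_of_lt (by have := Nat.mod_lt t hpos; omega)]
      omega
    rw [h1]
    simp [h0]

theorem mod_succ_zero (t j : ℕ) :
    decide (t % 2 ^ (j + 1) = 0) = (decide (t % 2 ^ j = 0) && !t.testBit j) := by
  rw [Nat.testBit_eq_decide_div_mod_eq]
  have h : t % 2 ^ (j + 1) = t % 2 ^ j + 2 ^ j * (t / 2 ^ j % 2) := by
    rw [pow_succ, Nat.mod_mul]
  have hpos : 0 < 2 ^ j := Nat.two_pow_pos j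
  rcases Nat.mod_two_eq_zero_or_one (t / 2 ^ j) with h2 | h2
  · rw [h, h2]; simp
  · rw [h, h2]; simp

theorem drop_finRange {j : ℕ} (hj : j < r) :
    (List.finRange r).drop j = ⟨j, hj⟩ :: (List.finRange r).drop (j + 1) := by
  rw [List.drop_eq_getElem_cons (by simpa using hj)]
  simp

theorem run_wt {t : ℕ} (ht : 1 ≤ t) (k j : ℕ) (hj : j + k = r) :
    (bl (((List.finRange r).drop j).map (wl t))).foldl δ
      (W ⟨j, by omega⟩ (decide (t % 2 ^ j = 0)) : St r) =
        W (Fin.last r) (decide (t % 2 ^ r = 0)) := by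
  induction k generalizing j with
  | zero =>
    have : j = r := by omega
    subst this
    rw [List.drop_of_length_le (by simp)]
    rfl
  | succ k ih =>
    have hj' : j < r := by omega
    rw [drop_finRange hj', List.map_cons, bl_cons, List.foldl_cons]
    have hd : δ (W ⟨j, by omega⟩ (decide (t % 2 ^ j = 0)) : St r)
        (x (wl t ⟨j, hj'⟩).1 (wl t ⟨j, hj'⟩).2.1 (wl t ⟨j, hj'⟩).2.2) =
        W ⟨j + 1, by omega⟩ (decide (t % 2 ^ (j + 1) = 0)) := by
      rw [mod_succ_zero]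
      refine if_pos ⟨rfl, ?_⟩
      simp only [wl]
      rw [bit_pred ht]
    rw [hd]
    exact ih (j + 1) (by omega)

theorem InW_wt {t : ℕ} (ht : 1 ≤ t) (ht' : t < 2 ^ r) : InW (wt r t) := by
  have h := run_wt (r := r) ht r 0 (by omega)
  unfold InW wt
  rw [List.drop_zero] at h
  have h1 : (decide (t % 2 ^ 0 = 0)) = true := by simp [Nat.mod_one]
  have h2 : (decide (t % 2 ^ r = 0)) = false := by
    rw [Nat.mod_eq_of_lt ht']
    simp; omega
  rw [h1, h2] at h
  exact h

theorem wt_of_run : ∀ (b : Blk r) (j : ℕ) (hj : j ≤ r) (t0 : ℕ), t0 < 2 ^ j →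
    (bl b).foldl δ (W ⟨j, by omega⟩ (decide (t0 = 0)) : St r) = W (Fin.last r) false →
    ∃ t, t % 2 ^ j = t0 ∧ 1 ≤ t ∧ t < 2 ^ r ∧ b = ((List.finRange r).drop j).map (wl t) := by
  intro b
  induction b with
  | nil =>
    intro j hj t0 ht0 h
    simp only [bl_nil, List.foldl_nil, St.W.injEq, decide_eq_false_iff_not] at h
    have hjr : j = r := congrArg Fin.val h.1
    subst hjr
    refine ⟨t0, Nat.mod_eq_of_lt ht0, by omega, ht0, ?_⟩
    rw [List.drop_of_length_le (by simp)]
    rfl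
  | cons c b ih =>
    intro j hj t0 ht0 h
    obtain ⟨p, s, y⟩ := c
    rw [bl_cons, List.foldl_cons] at h
    by_cases hc : j = p.val ∧ y = !(xor s (decide (t0 = 0)))
    · have hd : δ (W ⟨j, by omega⟩ (decide (t0 = 0)) : St r) (x p s y) =
          W p.succ (decide (t0 = 0) && !s) := if_pos hc
      simp only [hd] at h
      obtain ⟨hjp, hy⟩ := hc
      subst hjp
      have hpos : 0 < 2 ^ p.val := Nat.two_pow_pos _
      obtain ⟨t, h1, h2, h3, h4⟩ := ih (p.val + 1) (by omega) (2 ^ p.val * s.toNat + t0) (by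
          rw [pow_succ]; cases s <;> simp <;> omega) (by
          rw [← h]
          congr 2
          cases s <;> simp)
      have h5 : t % 2 ^ p.val = t0 := by
        have h6 : t % 2 ^ (p.val + 1) % 2 ^ p.val = t % 2 ^ p.val :=
          Nat.mod_mod_of_dvd _ (pow_dvd_pow 2 (Nat.le_succ _))
        rw [← h6, h1, Nat.mul_add_mod]
        exact Nat.mod_eq_of_lt ht0
      have h7 : t.testBit p.val = s := by
        have h8 : (t % 2 ^ (p.val + 1)).testBit p.val = t.testBit p.val := by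
          rw [Nat.testBit_mod_two_pow]; simp
        rw [← h8, h1]
        cases s with
        | false =>
          simp only [Bool.toNat_false, mul_zero, zero_add]
          exact Nat.testBit_lt_two_pow ht0
        | true =>
          simp only [Bool.toNat_true, mul_one]
          rw [Nat.testBit_two_pow_add_eq, Nat.testBit_lt_two_pow ht0]
          rfl
      refine ⟨t, h5, h2, h3, ?_⟩
      rw [drop_finRange p.isLt, List.map_cons, ← h4]
      congr 1
      unfold wl
      rw [bit_pred h2, h5, h7, ← hy]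
    · have hd : δ (W ⟨j, by omega⟩ (decide (t0 = 0)) : St r) (x p s y) = snk := if_neg hc
      simp only [hd, foldl_snk] at h
      exact absurd h (by simp)

theorem InW_iff (b : Blk r) : InW b ↔ ∃ t, 1 ≤ t ∧ t < 2 ^ r ∧ b = wt r t := by
  constructor
  · intro h
    obtain ⟨t, -, h1, h2, h3⟩ := wt_of_run b 0 (by omega) 0 (by simp) h
    exact ⟨t, h1, h2, by rw [h3, List.drop_zero]; rfl⟩
  · rintro ⟨t, h1, h2, rfl⟩
    exact InW_wt h1 h2

theorem Sm_wt (t : ℕ) (p : Fin r) : Sm (wt r t) p ↔ t.testBit p.val = true := by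
  unfold Sm wt wl
  simp only [List.mem_map, List.mem_finRange, true_and, Prod.mk.injEq]
  constructor
  · rintro ⟨y, q, rfl, h, -⟩; exact h
  · intro h; exact ⟨_, p, rfl, h, rfl⟩

theorem Ym_wt (t : ℕ) (p : Fin r) : Ym (wt r t) p ↔ (t - 1).testBit p.val = false := by
  unfold Ym wt wl
  simp only [List.mem_map, List.mem_finRange, true_and, Prod.mk.injEq]
  constructor
  · rintro ⟨y, q, rfl, -, h⟩; simpa using h
  · intro h; exact ⟨_, p, rfl, rfl, by simpa using h⟩

theorem Good_wt {s t : ℕ} (hs : 1 ≤ s) (ht : t < 2 ^ r) (hst : s ≤ t) :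
    Good (tok (wt r t)) (tok (wt r s)) := by
  show ∃ p, Sm (wt r t) p ∧ Ym (wt r s) p
  by_contra hc
  push Not at hc
  have h1 : t &&& (s - 1) = t := by
    apply Nat.eq_of_testBit_eq
    intro p
    rw [Nat.testBit_and]
    by_cases hp : p < r
    · by_cases h2 : t.testBit p = true
      · have h3 := hc ⟨p, hp⟩ ((Sm_wt _ _).2 h2)
        rw [Ym_wt] at h3
        simp only [Bool.not_eq_false] at h3
        rw [h2, h3]; rfl
      · simp only [Bool.not_eq_true] at h2
        rw [h2]; rfl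
    · have : t.testBit p = false :=
        Nat.testBit_lt_two_pow (lt_of_lt_of_le ht (Nat.pow_le_pow_right (by omega) (by omega)))
      rw [this]; rfl
  have h2 : t &&& (s - 1) ≤ s - 1 := Nat.and_le_right
  omega

theorem not_Good_wt (t : ℕ) : ¬ Good (tok (wt r t)) (tok (wt r (t + 1))) := by
  rintro ⟨p, h1, h2⟩
  rw [Sm_wt] at h1
  rw [Ym_wt, Nat.add_sub_cancel, h1] at h2
  exact absurd h2 (by simp)

/-- The pieces which remain after `k` more steps. -/
def Qn (k : ℕ) (q : Pc r) : Prop := ∃ t, 1 ≤ t ∧ t + k + 1 ≤ 2 ^ r ∧ q = tok (wt r t)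

theorem Q0_wt {t : ℕ} (ht : 1 ≤ t) (ht' : t < 2 ^ r) : Q0 (tok (wt r t)) := InW_wt ht ht'

theorem step_Q0 : (fun q : Pc r => Q0 q ∧ ¬ Un Good Q0 q) = Qn 1 := by
  funext q
  apply propext
  constructor
  · rintro ⟨h1, h2⟩
    cases q with
    | tok b =>
      obtain ⟨t, h3, h4, rfl⟩ := (InW_iff b).1 h1
      refine ⟨t, h3, ?_, rfl⟩
      by_contra hc
      apply h2
      refine ⟨h1, ?_⟩
      intro q' hq'
      cases q' with
      | tok b' =>
        obtain ⟨s, h5, h6, rfl⟩ := (InW_iff b').1 hq'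
        exact Good_wt h5 h4 (by omega)
      | _ => trivial
    | _ => exact absurd ⟨h1, fun q' _ => trivial⟩ h2
  · rintro ⟨t, h1, h2, rfl⟩
    refine ⟨Q0_wt h1 (by omega), ?_⟩
    rintro ⟨-, h3⟩
    exact not_Good_wt t (h3 _ (Q0_wt (by omega) (by omega)))

theorem step_Qn (k : ℕ) : (fun q : Pc r => Qn k q ∧ ¬ Un Good (Qn k) q) = Qn (k + 1) := by
  funext q
  apply propext
  constructor
  · rintro ⟨⟨t, h3, h4, rfl⟩, h2⟩
    refine ⟨t, h3, ?_, rfl⟩
    by_contra hc
    apply h2
    refine ⟨⟨t, h3, h4, rfl⟩, ?_⟩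
    rintro q' ⟨s, h5, h6, rfl⟩
    exact Good_wt h5 (by omega) (by omega)
  · rintro ⟨t, h1, h2, rfl⟩
    refine ⟨⟨t, h1, by omega, rfl⟩, ?_⟩
    rintro ⟨-, h3⟩
    exact not_Good_wt t (h3 _ ⟨t + 1, by omega, by omega, rfl⟩)

/-- The languages of the procedure. -/
theorem iter_minTail (r k : ℕ) :
    minTail^[k + 3] (X0 r) = Sq wd Good (Qn (r := r) (k + 1)) := by
  induction k with
  | zero =>
    show minTail (minTail (minTail (X0 r))) = _
    rw [minTail_X0, minTail_X1, minTail_Sq wd_ne_nil wd_inj, step_Q0]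
  | succ k ih =>
    rw [show k + 1 + 3 = (k + 3) + 1 by omega, Function.iterate_succ_apply', ih,
      minTail_Sq wd_ne_nil wd_inj, step_Qn]

/-- The exact number of steps. -/
theorem steps (r : ℕ) (hr : 1 ≤ r) :
    (∀ k < 2 ^ r + 1, leftStar (minTail^[k] (X0 r)) ≠ {[]}) ∧
      leftStar (minTail^[2 ^ r + 1] (X0 r)) = {[]} := by
  have h2 : 2 ≤ 2 ^ r := by
    calc 2 = 2 ^ 1 := rfl
      _ ≤ 2 ^ r := Nat.pow_le_pow_right (by omega) hr
  constructor
  · intro k hk
    match k, hk with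
    | 0, _ =>
      intro hc
      have h : ([G] : List (Lt r)) ∈ leftStar (X0 r) := (mem_leftStar_X0 _).2 (Or.inl rfl)
      have hc' : leftStar (X0 r) = {[]} := hc
      rw [hc', Set.mem_singleton_iff] at h
      simp at h
    | 1, _ =>
      intro hc
      have h : ([H] : List (Lt r)) ∈ leftStar (X1 r) := H_mem
      have hc' : leftStar (minTail (X0 r)) = {[]} := hc
      rw [minTail_X0] at hc'
      rw [hc', Set.mem_singleton_iff] at h
      simp at h
    | 2, _ =>
      show leftStar (minTail (minTail (X0 r))) ≠ {[]}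
      rw [minTail_X0, minTail_X1]
      apply leftStar_Sq_ne wd_ne_nil
      refine ⟨g1 [], ?_, fun q' _ => trivial⟩
      intro h
      have h' : (W 0 true : St r) = W (Fin.last r) false := h
      simp at h'
    | k + 3, hk =>
      rw [iter_minTail]
      apply leftStar_Sq_ne wd_ne_nil
      refine ⟨tok (wt r (2 ^ r - (k + 2))), ⟨_, by omega, by omega, rfl⟩, ?_⟩
      rintro q' ⟨s, h5, h6, rfl⟩
      exact Good_wt h5 (by omega) (by omega)
  · obtain ⟨k, hk⟩ : ∃ k, 2 ^ r + 1 = k + 3 := ⟨2 ^ r - 2, by omega⟩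
    rw [hk, iter_minTail]
    apply leftStar_Sq_eq
    rintro q ⟨t, h1, h3, -⟩
    omega

end Pool.Agent.EXS
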