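import Pool.Agent.EXS.Gram

namespace Pool.Agent.EXS

open Lt St Pool.Agent.Hhelper75.Star

variable {r : ℕ}

theorem acc_e_bl (b : Blk r) (v : List (Lt r)) : acc (e : St r) (bl b ++ D :: v) ↔ acc d0 v := by
  induction b with
  | nil => rfl
  | cons t b ih => exact ih

theorem acc_e_of_P0 (p : Fin r) {w : List (Lt r)} (h : acc (P0 p : St r) w) :
    acc (e : St r) w := by
  rw [acc_P0] at h
  obtain ⟨b, v, rfl, h⟩ := h
  rw [acc_P1] at h
  obtain ⟨u, rfl, h⟩ := h
  rw [acc_P4] at h
  obtain ⟨b', y, rfl, -, h⟩ := h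
  rw [acc_e_bl, acc_d0, ABE_iff, acc_h1, PB_parse]
  exact h

theorem acc_e_of_i {w : List (Lt r)} (h : acc (i : St r) w) : acc (e : St r) w := by
  cases w with
  | nil => rfl
  | cons a w =>
    rw [acc_cons] at h ⊢
    cases a with
    | x p s y =>
      cases s with
      | true => exact acc_e_of_P0 p h
      | false => exact absurd h (acc_dead w)
    | D => exact absurd h (acc_dead w)
    | _ => exact h

theorem K_iff (w : List (Lt r)) : (¬ acc (i : St r) w ∧ R (e : St r) w) ↔
    PB (fun b v => ABE (fun u => PB (fun b' y => (∀ p, Sm b p → ¬ Ym b' p) ∧ R f y) u) v) w := by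
  induction w with
  | nil => exact iff_of_false (fun h => h.1 rfl) (PB_nil _)
  | cons a w ih =>
    cases a with
    | x p s y =>
      rw [PB_x]
      have h1 : R (e : St r) (x p s y :: w) ↔ (¬ acc (i : St r) w ∧ R (e : St r) w) := by
        rw [R_cons]
        constructor
        · intro h; exact ⟨h.1 (Or.inr rfl), h.2⟩
        · intro h; exact ⟨fun _ => h.1, h.2⟩
      rw [h1, ih]
      cases s with
      | false =>
        have h2 : ¬ acc (i : St r) (x p false y :: w) := acc_dead w
        constructor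
        · rintro ⟨-, b, v, hw, h⟩
          refine ⟨b, v, hw, ?_⟩
          obtain ⟨u, hu, b', z, hz, h3, h4⟩ := h
          refine ⟨u, hu, b', z, hz, ?_, h4⟩
          intro p' hp'
          rw [Sm_cons] at hp'
          rcases hp' with hp' | hp'
          · exact absurd hp'.2 (by simp)
          · exact h3 p' hp'
        · rintro ⟨b, v, hw, h⟩
          refine ⟨h2, b, v, hw, ?_⟩
          obtain ⟨u, hu, b', z, hz, h3, h4⟩ := h
          refine ⟨u, hu, b', z, hz, ?_, h4⟩
          intro p' hp'
          exact h3 p' ((Sm_cons _ _ _).2 (Or.inr hp'))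
      | true =>
        have h2 : acc (i : St r) (x p true y :: w) ↔ acc (P0 p : St r) w := Iff.rfl
        rw [h2, acc_P0]
        constructor
        · rintro ⟨hn, b, v, rfl, u, rfl, b', z, rfl, h3, h4⟩
          rw [PB_parse, acc_P1, ABE_iff, acc_P4, PB_parse] at hn
          refine ⟨b, _, rfl, _, rfl, b', z, rfl, ?_, h4⟩
          intro p' hp'
          rw [Sm_cons] at hp'
          rcases hp' with ⟨hp', -⟩ | hp'
          · simp only at hp'
            subst hp'
            intro hy
            exact hn ⟨hy, acc_of_R h4⟩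
          · exact h3 p' hp'
        · rintro ⟨b, v, rfl, u, rfl, b', z, rfl, h3, h4⟩
          rw [PB_parse, acc_P1, ABE_iff, acc_P4, PB_parse]
          refine ⟨?_, b, _, rfl, _, rfl, b', z, rfl, ?_, h4⟩
          · rintro ⟨hy, -⟩
            exact h3 p ((Sm_cons _ _ _).2 (Or.inl ⟨rfl, rfl⟩)) hy
          · intro p' hp'
            exact h3 p' ((Sm_cons _ _ _).2 (Or.inr hp'))
    | D =>
      rw [PB_D, R_step (q' := d0) rfl w (by simp) (by simp), R_d0]
      have h2 : ¬ acc (i : St r) (D :: w) := acc_dead w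
      constructor
      · rintro ⟨-, u, hu, h⟩
        rw [R_h1] at h
        obtain ⟨b', z, hz, h⟩ := h
        exact ⟨u, hu, b', z, hz, fun p hp => absurd hp (not_Sm_nil p), h⟩
      · rintro ⟨u, hu, b', z, hz, -, h⟩
        exact ⟨h2, u, hu, (R_h1 u).2 ⟨b', z, hz, h⟩⟩
    | _ =>
      refine iff_of_false ?_ (PB_other _ _ w (by simp))
      rintro ⟨h1, h2⟩
      exact h1 (acc_of_R h2)

theorem not_R_G (q : St r) (w : List (Lt r)) : ¬ R q (G :: w) := by
  intro h
  have key : δ q G = i ∨ δ q G = dead := by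
    cases q <;> first | exact Or.inl rfl | exact Or.inr rfl
  rw [R_cons] at h
  rcases key with h1 | h1
  · rw [h1] at h
    exact h.1 (Or.inl rfl) (acc_of_R h.2)
  · rw [h1] at h
    exact R_dead w h.2

theorem R_f (w : List (Lt r)) : R (f : St r) w ↔ R i w ∧ w.head? ≠ some H := by
  cases w with
  | nil => simp [R, fin]
  | cons a w =>
    cases a with
    | G => exact iff_of_false (not_R_G _ _) (fun h => not_R_G _ _ h.1)
    | H =>
      rw [R_step_dead (q := f) (a := H) rfl w]
      simp
    | _ => simp only [List.head?_cons, ne_eq, Option.some.injEq, reduceCtorEq, not_false_eq_true, and_true]; exact Iff.rfl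

theorem R_n (w : List (Lt r)) : R (n : St r) w ↔ R i w := by
  cases w with
  | nil => simp [R, fin]
  | cons a w =>
    cases a with
    | G => exact iff_of_false (not_R_G _ _) (not_R_G _ _)
    | _ => exact Iff.rfl

theorem R_m2 (w : List (Lt r)) : R (m2 : St r) w ↔
    (R i w ∧ w.head? ≠ some E) ∨ ∃ v, w = E :: v ∧ PB (fun _ v => R f v) v := by
  cases w with
  | nil => simp [R, fin]
  | cons a w =>
    cases a with
    | G => exact iff_of_false (not_R_G _ _) (by simp [not_R_G])
    | E =>
      rw [R_step (q' := c1) rfl w (by simp) (by simp), R_c1]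
      simp
    | _ => simp only [List.head?_cons, ne_eq, Option.some.injEq, reduceCtorEq, not_false_eq_true, and_true, List.cons.injEq, false_and, exists_false, or_false]; exact Iff.rfl

theorem R_m1 (w : List (Lt r)) : R (m1 : St r) w ↔
    (R i w ∧ w.head? ≠ some B) ∨ ∃ v, w = B :: v ∧ R m2 v := by
  cases w with
  | nil => simp [R, fin]
  | cons a w =>
    cases a with
    | G => exact iff_of_false (not_R_G _ _) (by simp [not_R_G])
    | B =>
      rw [R_step (q' := m2) rfl w (by simp) (by simp)]
      simp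
    | _ => simp only [List.head?_cons, ne_eq, Option.some.injEq, reduceCtorEq, not_false_eq_true, and_true, List.cons.injEq, false_and, exists_false, or_false]; exact Iff.rfl

/-- Pieces. -/
inductive Pc (r : ℕ) where
  | tok (b : Blk r)
  | g1 (b : Blk r)
  | g2 (b b' : Blk r)
  | g3 (p : Fin r) (y : Bool) (b b' : Blk r)

open Pc

/-- The word of a piece. -/
def wd : Pc r → List (Lt r)
  | tok b => A :: B :: E :: (bl b ++ [D])
  | g1 b => B :: E :: (bl b ++ [D])
  | g2 b b' => E :: (bl b ++ D :: A :: B :: E :: (bl b' ++ [D]))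
  | g3 p y b b' => x p true y :: (bl b ++ D :: A :: B :: E :: (bl b' ++ [D]))

/-- The block word is one of the words `w_t`. -/
def InW (b : Blk r) : Prop := (bl b).foldl δ (W 0 true) = W (Fin.last r) false

/-- The pieces which occur in the first minimal tail. -/
def Val : Pc r → Prop
  | tok _ => True
  | g1 b => ¬ InW b
  | g2 b b' => ∀ p, Sm b p → ¬ Ym b' p
  | g3 p _ _ b' => Ym b' p

theorem wd_ne_nil (q : Pc r) : wd q ≠ [] := by cases q <;> simp [wd]

theorem R_wd (q : Pc r) (v : List (Lt r)) : R i (wd q ++ v) ↔ Val q ∧ R f v := by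
  cases q with
  | tok b =>
    simp only [wd, List.cons_append, List.append_assoc, List.nil_append, Val, true_and]
    rw [R_step (q' := m1) rfl _ (by simp) (by simp), R_step (q' := m2) rfl _ (by simp) (by simp),
      R_step (q' := c1) rfl _ (by simp) (by simp), R_c1, PB_parse]
  | g1 b =>
    simp only [wd, List.cons_append, List.append_assoc, List.nil_append, Val]
    rw [R_step (q' := v0) rfl _ (by simp) (by simp),
      R_step (q' := W 0 true) rfl _ (by simp) (by simp), R_W, PB_parse]
    rfl
  | g2 b b' =>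
    simp only [wd, List.cons_append, List.append_assoc, List.nil_append, Val]
    rw [R_cons, show δ (i : St r) E = e from rfl]
    have h : ∀ w : List (Lt r), (((e : St r) = i ∨ (e : St r) = e) → ¬ acc i w) ∧ R e w ↔
        (¬ acc (i : St r) w ∧ R (e : St r) w) := by
      intro w
      constructor
      · intro h; exact ⟨h.1 (Or.inr rfl), h.2⟩
      · intro h; exact ⟨fun _ => h.1, h.2⟩
    rw [h, K_iff, PB_parse, ABE_iff, PB_parse]
  | g3 p y b b' =>
    simp only [wd, List.cons_append, List.append_assoc, List.nil_append, Val]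
    rw [R_step (q' := P0 p) rfl _ (by simp) (by simp), R_P0, PB_parse, R_P1, ABE_iff, R_P4,
      PB_parse]

theorem R_H (v : List (Lt r)) : R i (H :: v) ↔ R i v := by
  rw [R_step (q' := n) rfl _ (by simp) (by simp), R_n]

theorem R_B_cases {v : List (Lt r)} (h : R (i : St r) (B :: v)) :
    ∃ b u, ¬ InW b ∧ v = E :: (bl b ++ D :: u) ∧ R f u := by
  rw [R_step (q' := v0) rfl _ (by simp) (by simp)] at h
  cases v with
  | nil => exact absurd h (not_R_nil rfl)
  | cons a v =>
    cases a with
    | E =>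
      rw [R_step (q' := W 0 true) rfl _ (by simp) (by simp), R_W] at h
      obtain ⟨b, u, rfl, h1, h2⟩ := h
      exact ⟨b, u, h1, rfl, h2⟩
    | _ => rw [R_step_dead rfl] at h; exact h.elim

theorem R_E_cases {w : List (Lt r)} (h : R (i : St r) (E :: w)) :
    ∃ b b' u, (∀ p, Sm b p → ¬ Ym b' p) ∧
      w = bl b ++ D :: A :: B :: E :: (bl b' ++ D :: u) ∧ R f u := by
  rw [R_cons, show δ (i : St r) E = e from rfl] at h
  have h' := (K_iff w).1 ⟨h.1 (Or.inr rfl), h.2⟩
  obtain ⟨b, _, rfl, _, rfl, b', z, rfl, h3, h4⟩ := h'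
  exact ⟨b, b', z, h3, rfl, h4⟩

theorem R_cases {w : List (Lt r)} (h : R (i : St r) w) :
    w = [] ∨ (∃ v, w = H :: v ∧ R i v) ∨ (∃ v, w = A :: v ∧ R i v) ∨
      (∃ v, w = A :: B :: v ∧ R i v) ∨ ∃ q v, Val q ∧ w = wd q ++ v ∧ R f v := by
  cases w with
  | nil => exact Or.inl rfl
  | cons a w =>
    cases a with
    | G => exact absurd h (not_R_G _ _)
    | H => exact Or.inr (Or.inl ⟨w, rfl, (R_H w).1 h⟩)
    | A =>
      rw [R_step (q' := m1) rfl _ (by simp) (by simp), R_m1] at h
      rcases h with ⟨h, -⟩ | ⟨v, rfl, h⟩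
      · exact Or.inr (Or.inr (Or.inl ⟨w, rfl, h⟩))
      · rw [R_m2] at h
        rcases h with ⟨h, -⟩ | ⟨u, rfl, b, z, rfl, h⟩
        · exact Or.inr (Or.inr (Or.inr (Or.inl ⟨v, rfl, h⟩)))
        · exact Or.inr (Or.inr (Or.inr (Or.inr ⟨tok b, z, trivial, by simp [wd], h⟩)))
    | B =>
      obtain ⟨b, u, h1, rfl, h2⟩ := R_B_cases h
      exact Or.inr (Or.inr (Or.inr (Or.inr ⟨g1 b, u, h1, by simp [wd], h2⟩)))
    | E =>
      obtain ⟨b, b', u, h1, rfl, h2⟩ := R_E_cases h
      exact Or.inr (Or.inr (Or.inr (Or.inr ⟨g2 b b', u, h1, by simp [wd], h2⟩)))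
    | D => rw [R_step_dead (q := i) (a := D) rfl] at h; exact h.elim
    | x p s y =>
      cases s with
      | false => rw [R_step_dead (q := i) (a := x p false y) rfl] at h; exact h.elim
      | true =>
        rw [R_step (q' := P0 p) rfl _ (by simp) (by simp), R_P0] at h
        obtain ⟨b, v, rfl, h⟩ := h
        rw [R_P1] at h
        obtain ⟨u, rfl, h⟩ := h
        rw [R_P4] at h
        obtain ⟨b', z, rfl, h1, h2⟩ := h
        exact Or.inr (Or.inr (Or.inr (Or.inr ⟨g3 p y b b', z, h1, by simp [wd], h2⟩)))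

/-- Prepending `A`. -/
theorem R_A_cons {v : List (Lt r)} (h : R (i : St r) v) : R (i : St r) (A :: v) := by
  rw [R_step (q' := m1) rfl _ (by simp) (by simp), R_m1]
  by_cases hB : v.head? = some B
  · right
    cases v with
    | nil => simp at hB
    | cons a v =>
      simp only [List.head?_cons, Option.some.injEq] at hB
      subst hB
      refine ⟨v, rfl, ?_⟩
      obtain ⟨b, u, -, rfl, h2⟩ := R_B_cases h
      rw [R_m2]
      exact Or.inr ⟨_, rfl, b, u, rfl, h2⟩
  · exact Or.inl ⟨h, hB⟩

/-- Prepending `A B`. -/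
theorem R_AB_cons {v : List (Lt r)} (h : R (i : St r) v) : R (i : St r) (A :: B :: v) := by
  rw [R_step (q' := m1) rfl _ (by simp) (by simp), R_m1]
  refine Or.inr ⟨v, rfl, ?_⟩
  rw [R_m2]
  by_cases hE : v.head? = some E
  · right
    cases v with
    | nil => simp at hE
    | cons a v =>
      simp only [List.head?_cons, Option.some.injEq] at hE
      subst hE
      refine ⟨v, rfl, ?_⟩
      obtain ⟨b, b', u, -, rfl, h2⟩ := R_E_cases h
      refine ⟨b, _, rfl, ?_⟩
      have := (R_wd (tok b') u).2 ⟨trivial, h2⟩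
      exact (R_f _).2 ⟨by simpa [wd] using this, by simp⟩
  · exact Or.inl ⟨h, hE⟩

end Pool.Agent.EXS
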