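import Pool.Agent.EXS.Auto

namespace Pool.Agent.EXS

open Lt St Pool.Agent.Hhelper75.Star

variable {r : ℕ}

/-- Block words. -/
abbrev Blk (r : ℕ) := List (Fin r × Bool × Bool)

/-- The letters of a block word. -/
def bl (b : Blk r) : List (Lt r) := b.map fun t => x t.1 t.2.1 t.2.2

@[simp] theorem bl_nil : bl ([] : Blk r) = [] := rfl

@[simp] theorem bl_cons (t : Fin r × Bool × Bool) (b : Blk r) :
    bl (t :: b) = x t.1 t.2.1 t.2.2 :: bl b := rfl

/-- `w` is a block word, then `D`, then a word `v`, with a condition on the two. -/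
def PB (Φ : Blk r → List (Lt r) → Prop) (w : List (Lt r)) : Prop :=
  ∃ b v, w = bl b ++ D :: v ∧ Φ b v

theorem PB_nil (Φ : Blk r → List (Lt r) → Prop) : ¬ PB Φ [] := by
  rintro ⟨b, v, h, -⟩; simp at h

theorem PB_x (Φ : Blk r → List (Lt r) → Prop) (p : Fin r) (s y : Bool) (w : List (Lt r)) :
    PB Φ (x p s y :: w) ↔ PB (fun b v => Φ ((p, s, y) :: b) v) w := by
  constructor
  · rintro ⟨b, v, hw, h⟩
    cases b with
    | nil => simp at hw
    | cons t b =>
      obtain ⟨p', s', y'⟩ := t
      simp only [bl_cons, List.cons_append, List.cons.injEq, Lt.x.injEq] at hw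
      obtain ⟨⟨rfl, rfl, rfl⟩, hw⟩ := hw
      exact ⟨b, v, hw, h⟩
  · rintro ⟨b, v, rfl, h⟩
    exact ⟨(p, s, y) :: b, v, rfl, h⟩

theorem PB_D (Φ : Blk r → List (Lt r) → Prop) (w : List (Lt r)) :
    PB Φ (D :: w) ↔ Φ [] w := by
  constructor
  · rintro ⟨b, v, hw, h⟩
    cases b with
    | nil =>
      simp only [bl_nil, List.nil_append, List.cons.injEq, true_and] at hw
      rw [hw]; exact h
    | cons t b => simp at hw
  · intro h; exact ⟨[], w, rfl, h⟩

theorem PB_other (Φ : Blk r → List (Lt r) → Prop) (a : Lt r) (w : List (Lt r))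
    (ha : a = G ∨ a = H ∨ a = A ∨ a = B ∨ a = E) : ¬ PB Φ (a :: w) := by
  rintro ⟨b, v, hw, h⟩
  rcases ha with rfl | rfl | rfl | rfl | rfl <;> cases b <;> simp at hw

theorem PB_G (Φ : Blk r → List (Lt r) → Prop) (w : List (Lt r)) : PB Φ (G :: w) ↔ False :=
  iff_false_intro (PB_other Φ G w (by simp))
theorem PB_H (Φ : Blk r → List (Lt r) → Prop) (w : List (Lt r)) : PB Φ (H :: w) ↔ False :=
  iff_false_intro (PB_other Φ H w (by simp))
theorem PB_A (Φ : Blk r → List (Lt r) → Prop) (w : List (Lt r)) : PB Φ (A :: w) ↔ False :=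
  iff_false_intro (PB_other Φ A w (by simp))
theorem PB_B (Φ : Blk r → List (Lt r) → Prop) (w : List (Lt r)) : PB Φ (B :: w) ↔ False :=
  iff_false_intro (PB_other Φ B w (by simp))
theorem PB_E (Φ : Blk r → List (Lt r) → Prop) (w : List (Lt r)) : PB Φ (E :: w) ↔ False :=
  iff_false_intro (PB_other Φ E w (by simp))

theorem PB_congr {Φ Ψ : Blk r → List (Lt r) → Prop} (h : ∀ b v, Φ b v ↔ Ψ b v)
    (w : List (Lt r)) : PB Φ w ↔ PB Ψ w := by
  unfold PB
  simp only [h]

theorem PB_and_left {Φ : Blk r → List (Lt r) → Prop} {w : List (Lt r)} {c : Prop} :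
    (c ∧ PB Φ w) ↔ PB (fun b v => c ∧ Φ b v) w := by
  unfold PB
  constructor
  · rintro ⟨hc, b, v, hw, h⟩; exact ⟨b, v, hw, hc, h⟩
  · rintro ⟨b, v, hw, hc, h⟩; exact ⟨hc, b, v, hw, h⟩

/-- Unique parsing of a block word. -/
theorem PB_parse (Φ : Blk r → List (Lt r) → Prop) (b : Blk r) (v : List (Lt r)) :
    PB Φ (bl b ++ D :: v) ↔ Φ b v := by
  induction b generalizing Φ with
  | nil => exact PB_D Φ v
  | cons t b ih =>
    obtain ⟨p, s, y⟩ := t
    simp only [bl_cons, List.cons_append]
    rw [PB_x, ih]

/-- The words accepted from `q` such that no proper prefix is a left factor. -/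
def R : St r → List (Lt r) → Prop
  | q, [] => fin q = true
  | q, a :: w => ((δ q a = i ∨ δ q a = e) → ¬ acc i w) ∧ R (δ q a) w

theorem R_nil (q : St r) : R q [] ↔ fin q = true := Iff.rfl

theorem R_cons (q : St r) (a : Lt r) (w : List (Lt r)) :
    R q (a :: w) ↔ ((δ q a = i ∨ δ q a = e) → ¬ acc i w) ∧ R (δ q a) w := Iff.rfl

theorem acc_of_R {q : St r} {w : List (Lt r)} (h : R q w) : acc q w := by
  induction w generalizing q with
  | nil => exact h
  | cons a w ih => exact ih h.2

theorem R_iff (q : St r) (w : List (Lt r)) :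
    R q w ↔ acc q w ∧ ∀ u v, u ++ v = w → u ≠ [] →
      (u.foldl δ q = i ∨ u.foldl δ q = e) → ¬ acc i v := by
  induction w generalizing q with
  | nil =>
    constructor
    · intro h
      refine ⟨h, ?_⟩
      intro u v huv hu
      exact absurd (List.append_eq_nil_iff.mp huv).1 hu
    · intro h; exact h.1
  | cons a w ih =>
    rw [R_cons, ih, acc_cons]
    constructor
    · rintro ⟨h1, h2, h3⟩
      refine ⟨h2, ?_⟩
      intro u v huv hu hq
      cases u with
      | nil => exact absurd rfl hu
      | cons a' u =>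
        simp only [List.cons_append, List.cons.injEq] at huv
        obtain ⟨rfl, huv⟩ := huv
        by_cases hu' : u = []
        · subst hu'
          simp only [List.nil_append] at huv
          subst huv
          exact h1 hq
        · exact h3 u v huv hu' hq
    · rintro ⟨h2, h3⟩
      refine ⟨?_, h2, ?_⟩
      · intro hq
        exact h3 [a] w rfl (by simp) hq
      · intro u v huv hu hq
        exact h3 (a :: u) v (by rw [← huv]; rfl) (by simp) hq

theorem acc_dead (w : List (Lt r)) : ¬ acc (dead : St r) w := by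
  induction w with
  | nil => simp [acc, fin]
  | cons a w ih => exact ih

theorem R_dead (w : List (Lt r)) : ¬ R (dead : St r) w := fun h => acc_dead w (acc_of_R h)

theorem not_acc_nil {q : St r} (h : fin q = false) : ¬ acc q [] := by
  intro h'; rw [acc_nil] at h'; rw [h] at h'; exact Bool.false_ne_true h'

theorem not_R_nil {q : St r} (h : fin q = false) : ¬ R q [] := fun h' => not_acc_nil h (acc_of_R h')

theorem R_step {q : St r} {a : Lt r} {q' : St r} (h : δ q a = q') (w : List (Lt r))
    (h1 : q' ≠ i) (h2 : q' ≠ e) : R q (a :: w) ↔ R q' w := by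
  rw [R_cons, h]
  constructor
  · intro h; exact h.2
  · intro h
    exact ⟨fun h' => absurd h' (by simp [h1, h2]), h⟩

theorem R_step_dead {q : St r} {a : Lt r} (h : δ q a = dead) (w : List (Lt r)) :
    R q (a :: w) ↔ False := by
  rw [R_step h w (by simp) (by simp)]
  exact iff_false_intro (R_dead w)

/-- Words accepted from the states `c1` and `h1`. -/
theorem acc_h1 (w : List (Lt r)) :
    acc (h1 : St r) w ↔ PB (fun _ v => acc f v) w := by
  induction w with
  | nil => exact iff_of_false (not_acc_nil rfl) (PB_nil _)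
  | cons a w ih =>
    rw [acc_cons]
    cases a with
    | x p s y => rw [PB_x]; exact ih
    | D => rw [PB_D]; rfl
    | _ => exact iff_of_false (acc_dead w) (PB_other _ _ w (by simp))

theorem R_h1 (w : List (Lt r)) :
    R (h1 : St r) w ↔ PB (fun _ v => R f v) w := by
  induction w with
  | nil => exact iff_of_false (not_R_nil rfl) (PB_nil _)
  | cons a w ih =>
    cases a with
    | x p s y => rw [PB_x, R_step (q' := h1) rfl w (by simp) (by simp)]; exact ih
    | D => rw [PB_D, R_step (q' := f) rfl w (by simp) (by simp)]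
    | _ =>
      rw [R_step_dead rfl w]
      exact iff_of_false id (PB_other _ _ w (by simp))

theorem R_c1 (w : List (Lt r)) :
    R (c1 : St r) w ↔ PB (fun _ v => R f v) w := by
  induction w with
  | nil => exact iff_of_false (not_R_nil rfl) (PB_nil _)
  | cons a w ih =>
    cases a with
    | x p s y => rw [PB_x, R_step (q' := c1) rfl w (by simp) (by simp)]; exact ih
    | D => rw [PB_D, R_step (q' := f) rfl w (by simp) (by simp)]
    | _ =>
      rw [R_step_dead rfl w]
      exact iff_of_false id (PB_other _ _ w (by simp))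

theorem foldl_snk (b : Blk r) : (bl b).foldl δ (snk : St r) = snk := by
  induction b with
  | nil => rfl
  | cons t b ih => exact ih

theorem R_snk (w : List (Lt r)) :
    R (snk : St r) w ↔ PB (fun _ v => R f v) w := by
  induction w with
  | nil => exact iff_of_false (not_R_nil rfl) (PB_nil _)
  | cons a w ih =>
    cases a with
    | x p s y => rw [PB_x, R_step (q' := snk) rfl w (by simp) (by simp)]; exact ih
    | D => rw [PB_D, R_step (q' := f) rfl w (by simp) (by simp)]
    | _ =>
      rw [R_step_dead rfl w]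
      exact iff_of_false id (PB_other _ _ w (by simp))

theorem R_W (j : Fin (r + 1)) (b : Bool) (w : List (Lt r)) :
    R (W j b : St r) w ↔
      PB (fun c v => (bl c).foldl δ (W j b) ≠ W (Fin.last r) false ∧ R f v) w := by
  induction w generalizing j b with
  | nil => exact iff_of_false (not_R_nil rfl) (PB_nil _)
  | cons a w ih =>
    cases a with
    | x p s y =>
      rw [PB_x]
      by_cases h : j.val = p.val ∧ y = !(xor s b)
      · have hd : δ (W j b) (x p s y) = W p.succ (b && !s) := if_pos h
        rw [R_step hd w (by simp) (by simp), ih]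
        apply PB_congr
        intro c v
        rw [bl_cons, List.foldl_cons]
        simp only [hd]
      · have hd : δ (W j b) (x p s y) = snk := if_neg h
        rw [R_step hd w (by simp) (by simp), R_snk]
        apply PB_congr
        intro c v
        rw [bl_cons, List.foldl_cons]
        simp only [hd, foldl_snk]
        simp
    | D =>
      rw [PB_D]
      by_cases h : j.val = r ∧ b = false
      · have hd : δ (W j b) D = dead := if_pos h
        rw [R_step_dead hd]
        have hj : j = Fin.last r := Fin.ext h.1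
        rw [hj, h.2]
        simp
      · have hd : δ (W j b) D = f := if_neg h
        rw [R_step hd w (by simp) (by simp)]
        have : (bl ([] : Blk r)).foldl δ (W j b) ≠ W (Fin.last r) false := by
          simp only [bl_nil, List.foldl_nil, ne_eq, St.W.injEq]
          rintro ⟨rfl, rfl⟩
          exact h ⟨rfl, rfl⟩
        exact ⟨fun h => ⟨this, h⟩, fun h => h.2⟩
    | _ =>
      rw [R_step_dead rfl w]
      exact iff_of_false id (PB_other _ _ w (by simp))

/-- `p` is marked in the first coordinates of `b`. -/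
def Sm (b : Blk r) (p : Fin r) : Prop := ∃ y, (p, true, y) ∈ b

/-- `p` is marked in the second coordinates of `b`. -/
def Ym (b : Blk r) (p : Fin r) : Prop := ∃ s, (p, s, true) ∈ b

theorem not_Ym_nil (p : Fin r) : ¬ Ym ([] : Blk r) p := by simp [Ym]

theorem not_Sm_nil (p : Fin r) : ¬ Sm ([] : Blk r) p := by simp [Sm]

theorem Ym_cons (t : Fin r × Bool × Bool) (b : Blk r) (p : Fin r) :
    Ym (t :: b) p ↔ (t.1 = p ∧ t.2.2 = true) ∨ Ym b p := by
  obtain ⟨p', s', y'⟩ := t
  simp only [Ym, List.mem_cons, Prod.mk.injEq]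
  constructor
  · rintro ⟨s, ⟨h1, h2, h3⟩ | h⟩
    · exact Or.inl ⟨h1.symm, h3.symm⟩
    · exact Or.inr ⟨s, h⟩
  · rintro (⟨h1, h2⟩ | ⟨s, h⟩)
    · exact ⟨s', Or.inl ⟨h1.symm, rfl, h2.symm⟩⟩
    · exact ⟨s, Or.inr h⟩

theorem Sm_cons (t : Fin r × Bool × Bool) (b : Blk r) (p : Fin r) :
    Sm (t :: b) p ↔ (t.1 = p ∧ t.2.1 = true) ∨ Sm b p := by
  obtain ⟨p', s', y'⟩ := t
  simp only [Sm, List.mem_cons, Prod.mk.injEq]
  constructor
  · rintro ⟨s, ⟨h1, h2, h3⟩ | h⟩
    · exact Or.inl ⟨h1.symm, h2.symm⟩
    · exact Or.inr ⟨s, h⟩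
  · rintro (⟨h1, h2⟩ | ⟨s, h⟩)
    · exact ⟨y', Or.inl ⟨h1.symm, h2.symm, rfl⟩⟩
    · exact ⟨s, Or.inr h⟩

theorem acc_P4 (p : Fin r) (w : List (Lt r)) :
    acc (P4 p : St r) w ↔ PB (fun b v => Ym b p ∧ acc f v) w := by
  induction w with
  | nil => exact iff_of_false (not_acc_nil rfl) (PB_nil _)
  | cons a w ih =>
    rw [acc_cons]
    cases a with
    | x p' s y =>
      rw [PB_x]
      by_cases h : p' = p ∧ y = true
      · have hd : δ (P4 p) (x p' s y) = h1 := if_pos h
        rw [hd, acc_h1]
        apply PB_congr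
        intro b v
        rw [Ym_cons]
        simp [h]
      · have hd : δ (P4 p) (x p' s y) = P4 p := if_neg h
        rw [hd, ih]
        apply PB_congr
        intro b v
        rw [Ym_cons]
        simp only [h, false_or]
    | D =>
      rw [PB_D]
      exact iff_of_false (acc_dead w) (fun h => not_Ym_nil p h.1)
    | _ => exact iff_of_false (acc_dead w) (PB_other _ _ w (by simp))

theorem R_P4 (p : Fin r) (w : List (Lt r)) :
    R (P4 p : St r) w ↔ PB (fun b v => Ym b p ∧ R f v) w := by
  induction w with
  | nil => exact iff_of_false (not_R_nil rfl) (PB_nil _)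
  | cons a w ih =>
    cases a with
    | x p' s y =>
      rw [PB_x]
      by_cases h : p' = p ∧ y = true
      · have hd : δ (P4 p) (x p' s y) = h1 := if_pos h
        rw [R_step hd w (by simp) (by simp), R_h1]
        apply PB_congr
        intro b v
        rw [Ym_cons]
        simp [h]
      · have hd : δ (P4 p) (x p' s y) = P4 p := if_neg h
        rw [R_step hd w (by simp) (by simp), ih]
        apply PB_congr
        intro b v
        rw [Ym_cons]
        simp only [h, false_or]
    | D =>
      rw [PB_D, R_step_dead rfl w]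
      exact iff_of_false id (fun h => not_Ym_nil p h.1)
    | _ =>
      rw [R_step_dead rfl w]
      exact iff_of_false id (PB_other _ _ w (by simp))

/-- The word starts with `A B E` and then satisfies `Φ`. -/
def ABE (Φ : List (Lt r) → Prop) (w : List (Lt r)) : Prop :=
  ∃ v, w = A :: B :: E :: v ∧ Φ v

theorem ABE_iff (Φ : List (Lt r) → Prop) (v : List (Lt r)) :
    ABE Φ (A :: B :: E :: v) ↔ Φ v := by
  constructor
  · rintro ⟨v', h, hv⟩
    simp only [List.cons.injEq, true_and] at h
    rw [h]; exact hv
  · intro h; exact ⟨v, rfl, h⟩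

/-- Three forced letters. -/
theorem three_R {q0 q1 q2 q3 : St r} (f0 : fin q0 = false) (f1 : fin q1 = false)
    (f2 : fin q2 = false)
    (h0 : δ q0 A = q1) (g0 : ∀ a, a ≠ A → δ q0 a = dead)
    (h1 : δ q1 B = q2) (g1 : ∀ a, a ≠ B → δ q1 a = dead)
    (h2 : δ q2 E = q3) (g2 : ∀ a, a ≠ E → δ q2 a = dead)
    (k1 : q1 ≠ i ∧ q1 ≠ e) (k2 : q2 ≠ i ∧ q2 ≠ e) (k3 : q3 ≠ i ∧ q3 ≠ e)
    (w : List (Lt r)) : R q0 w ↔ ABE (fun v => R q3 v) w := by
  constructor
  · intro h
    match w, h with
    | [], h => exact absurd h (not_R_nil f0)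
    | a :: w, h =>
      by_cases ha : a = A
      · subst ha
        rw [R_step h0 w k1.1 k1.2] at h
        match w, h with
        | [], h => exact absurd h (not_R_nil f1)
        | a :: w, h =>
          by_cases ha : a = B
          · subst ha
            rw [R_step h1 w k2.1 k2.2] at h
            match w, h with
            | [], h => exact absurd h (not_R_nil f2)
            | a :: w, h =>
              by_cases ha : a = E
              · subst ha
                rw [R_step h2 w k3.1 k3.2] at h
                exact ⟨w, rfl, h⟩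
              · rw [R_step_dead (g2 a ha)] at h; exact h.elim
          · rw [R_step_dead (g1 a ha)] at h; exact h.elim
      · rw [R_step_dead (g0 a ha)] at h; exact h.elim
  · rintro ⟨v, rfl, h⟩
    rw [R_step h0 _ k1.1 k1.2, R_step h1 _ k2.1 k2.2, R_step h2 _ k3.1 k3.2]
    exact h

theorem three_acc {q0 q1 q2 q3 : St r} (f0 : fin q0 = false) (f1 : fin q1 = false)
    (f2 : fin q2 = false)
    (h0 : δ q0 A = q1) (g0 : ∀ a, a ≠ A → δ q0 a = dead)
    (h1 : δ q1 B = q2) (g1 : ∀ a, a ≠ B → δ q1 a = dead)
    (h2 : δ q2 E = q3) (g2 : ∀ a, a ≠ E → δ q2 a = dead)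
    (w : List (Lt r)) : acc q0 w ↔ ABE (fun v => acc q3 v) w := by
  constructor
  · intro h
    match w, h with
    | [], h => exact absurd h (not_acc_nil f0)
    | a :: w, h =>
      rw [acc_cons] at h
      by_cases ha : a = A
      · subst ha
        rw [h0] at h
        match w, h with
        | [], h => exact absurd h (not_acc_nil f1)
        | a :: w, h =>
          rw [acc_cons] at h
          by_cases ha : a = B
          · subst ha
            rw [h1] at h
            match w, h with
            | [], h => exact absurd h (not_acc_nil f2)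
            | a :: w, h =>
              rw [acc_cons] at h
              by_cases ha : a = E
              · subst ha
                rw [h2] at h
                exact ⟨w, rfl, h⟩
              · rw [g2 a ha] at h; exact absurd h (acc_dead _)
          · rw [g1 a ha] at h; exact absurd h (acc_dead _)
      · rw [g0 a ha] at h; exact absurd h (acc_dead _)
  · rintro ⟨v, rfl, h⟩
    rw [acc_cons, h0, acc_cons, h1, acc_cons, h2]
    exact h

theorem R_d0 (w : List (Lt r)) : R (d0 : St r) w ↔ ABE (fun v => R h1 v) w := by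
  apply three_R (q1 := d1) (q2 := d2) <;> first | rfl | (intro a ha; cases a <;> first | rfl | exact absurd rfl ha) | simp

theorem acc_d0 (w : List (Lt r)) : acc (d0 : St r) w ↔ ABE (fun v => acc h1 v) w := by
  apply three_acc (q1 := d1) (q2 := d2) <;> first | rfl | (intro a ha; cases a <;> first | rfl | exact absurd rfl ha)

theorem R_P1 (p : Fin r) (w : List (Lt r)) : R (P1 p : St r) w ↔ ABE (fun v => R (P4 p) v) w := by
  apply three_R (q1 := P2 p) (q2 := P3 p) <;> first | rfl | (intro a ha; cases a <;> first | rfl | exact absurd rfl ha) | simp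

theorem acc_P1 (p : Fin r) (w : List (Lt r)) :
    acc (P1 p : St r) w ↔ ABE (fun v => acc (P4 p) v) w := by
  apply three_acc (q1 := P2 p) (q2 := P3 p) <;> first | rfl | (intro a ha; cases a <;> first | rfl | exact absurd rfl ha)

theorem acc_P0 (p : Fin r) (w : List (Lt r)) :
    acc (P0 p : St r) w ↔ PB (fun _ v => acc (P1 p) v) w := by
  induction w with
  | nil => exact iff_of_false (not_acc_nil rfl) (PB_nil _)
  | cons a w ih =>
    rw [acc_cons]
    cases a with
    | x p s y => rw [PB_x]; exact ih
    | D => rw [PB_D]; rfl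
    | _ => exact iff_of_false (acc_dead w) (PB_other _ _ w (by simp))

theorem R_P0 (p : Fin r) (w : List (Lt r)) :
    R (P0 p : St r) w ↔ PB (fun _ v => R (P1 p) v) w := by
  induction w with
  | nil => exact iff_of_false (not_R_nil rfl) (PB_nil _)
  | cons a w ih =>
    cases a with
    | x p' s y => rw [PB_x, R_step (q' := P0 p) rfl w (by simp) (by simp)]; exact ih
    | D => rw [PB_D, R_step (q' := P1 p) rfl w (by simp) (by simp)]
    | _ =>
      rw [R_step_dead rfl w]
      exact iff_of_false id (PB_other _ _ w (by simp))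

end Pool.Agent.EXS
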