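import Pool.Agent.Hhelper75.Star.Basic

/-!
# Products of chains of pieces
-/

namespace Pool.Agent.EXS

open Pool.Agent.Hhelper75.Star

section Abs

variable {α P : Type} (wd : P → List α) (Good : P → P → Prop)

/-- The words `wd q₁ ⋯ wd q_k` such that consecutive pieces are in the relation `Good`. -/
def Sq (Q : P → Prop) : Set (List α) :=
  {w | ∃ l : List P, (∀ q ∈ l, Q q) ∧ l.IsChain Good ∧ w = l.flatMap wd}

/-- The pieces which can be followed by every piece. -/
def Un (Q : P → Prop) (q : P) : Prop := Q q ∧ ∀ q', Q q' → Good q q'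

variable {wd Good}

theorem flatMap_ne_nil (hne : ∀ q, wd q ≠ []) {l : List P} (hl : l ≠ []) :
    l.flatMap wd ≠ [] := by
  cases l with
  | nil => exact absurd rfl hl
  | cons q l =>
    rw [List.flatMap_cons]
    intro h
    exact hne q (List.append_eq_nil_iff.mp h).1

theorem flatMap_inj (hne : ∀ q, wd q ≠ [])
    (hinj : ∀ q q' u v, wd q ++ u = wd q' ++ v → q = q' ∧ u = v) :
    ∀ l l' : List P, l.flatMap wd = l'.flatMap wd → l = l' := by
  intro l
  induction l with
  | nil =>
    intro l' h
    by_contra hc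
    exact flatMap_ne_nil hne (Ne.symm hc) h.symm
  | cons q l ih =>
    intro l' h
    cases l' with
    | nil => exact absurd h (flatMap_ne_nil hne (by simp))
    | cons q' l' =>
      rw [List.flatMap_cons, List.flatMap_cons] at h
      obtain ⟨h1, h2⟩ := hinj _ _ _ _ h
      rw [h1, ih l' h2]

theorem leftStar_Sq_subset (Q : P → Prop) : leftStar (Sq wd Good Q) ⊆ Sq wd Good Q := by
  intro s hs
  have h0 : ([] : List α) ∈ Sq wd Good Q := ⟨[], by simp, by simp, by simp⟩
  have := hs [] h0
  rwa [List.append_nil] at this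

/-- The last piece of a word of the maximal left star can be followed by every piece. -/
theorem Un_of_mem_leftStar (hne : ∀ q, wd q ≠ [])
    (hinj : ∀ q q' u v, wd q ++ u = wd q' ++ v → q = q' ∧ u = v) {Q : P → Prop}
    {l : List P} {q : P} (h : (l ++ [q]).flatMap wd ∈ leftStar (Sq wd Good Q))
    (hQ : Q q) : Un Good Q q := by
  refine ⟨hQ, ?_⟩
  intro q' hq'
  have h1 : [q'].flatMap wd ∈ Sq wd Good Q := ⟨[q'], by simpa using hq', by simp, rfl⟩
  obtain ⟨l', h2, h3, h4⟩ := h _ h1
  rw [← List.flatMap_append] at h4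
  have h5 := flatMap_inj hne hinj _ _ h4
  rw [← h5] at h3
  rw [List.append_assoc] at h3
  simp only [List.cons_append, List.nil_append] at h3
  rw [List.isChain_append_cons_cons] at h3
  exact h3.2.1

theorem mem_leftStar_Sq {Q : P → Prop} {l : List P} {q : P} (hl : ∀ q' ∈ l ++ [q], Q q')
    (hc : (l ++ [q]).IsChain Good) (hU : Un Good Q q) :
    (l ++ [q]).flatMap wd ∈ leftStar (Sq wd Good Q) := by
  rintro a ⟨l', h1, h2, rfl⟩
  refine ⟨(l ++ [q]) ++ l', ?_, ?_, by rw [← List.flatMap_append]⟩
  · intro q' hq'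
    rcases List.mem_append.1 hq' with h | h
    · exact hl q' h
    · exact h1 q' h
  · cases l' with
    | nil => simpa using hc
    | cons q' l' =>
      rw [List.append_assoc]
      simp only [List.cons_append, List.nil_append]
      rw [List.isChain_append_cons_cons]
      exact ⟨hc, hU.2 q' (h1 q' (by simp)), h2⟩

/-- One step of the procedure for products of chains of pieces. -/
theorem minTail_Sq (hne : ∀ q, wd q ≠ [])
    (hinj : ∀ q q' u v, wd q ++ u = wd q' ++ v → q = q' ∧ u = v) (Q : P → Prop) :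
    minTail (Sq wd Good Q) = Sq wd Good (fun q => Q q ∧ ¬ Un Good Q q) := by
  ext w
  constructor
  · rintro ⟨⟨l, h1, h2, rfl⟩, h3⟩
    refine ⟨l, ?_, h2, rfl⟩
    intro q hq
    refine ⟨h1 q hq, ?_⟩
    intro hU
    obtain ⟨l1, l2, rfl⟩ := List.append_of_mem hq
    apply h3
    have e1 : l1 ++ q :: l2 = (l1 ++ [q]) ++ l2 := by simp
    refine ⟨(l1 ++ [q]).flatMap wd, flatMap_ne_nil hne (by simp), ?_, l2.flatMap wd, ?_, ?_⟩
    · apply mem_leftStar_Sq _ _ hU
      · intro q' hq'
        apply h1 q'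
        rw [e1]
        exact List.mem_append_left _ hq'
      · rw [e1] at h2
        exact h2.left_of_append
    · refine ⟨l2, ?_, ?_, rfl⟩
      · intro q' hq'
        apply h1 q'
        rw [e1]
        exact List.mem_append_right _ hq'
      · rw [e1] at h2
        exact h2.right_of_append
    · rw [e1, List.flatMap_append (xs := l1 ++ [q])]
  · rintro ⟨l, h1, h2, rfl⟩
    refine ⟨⟨l, fun q hq => (h1 q hq).1, h2, rfl⟩, ?_⟩
    rintro ⟨s, hs0, hs, a, ⟨l2, h3, h4, rfl⟩, h5⟩
    obtain ⟨l1, h6, h7, rfl⟩ := leftStar_Sq_subset Q hs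
    rw [← List.flatMap_append] at h5
    have h8 := flatMap_inj hne hinj _ _ h5
    rcases List.eq_nil_or_concat l1 with h9 | ⟨l3, q, h9⟩
    · subst h9
      exact hs0 rfl
    · rw [List.concat_eq_append] at h9
      subst h9
      have hq : q ∈ l := by
        rw [← h8]; simp
      exact (h1 q hq).2 (Un_of_mem_leftStar hne hinj hs (h1 q hq).1)

theorem leftStar_Sq_ne (hne : ∀ q, wd q ≠ []) {Q : P → Prop} (h : ∃ q, Un Good Q q) :
    leftStar (Sq wd Good Q) ≠ {[]} := by
  obtain ⟨q, hq⟩ := h
  intro hc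
  have h1 : ([] ++ [q]).flatMap wd ∈ leftStar (Sq wd Good Q) := by
    apply mem_leftStar_Sq _ _ hq
    · intro q' hq'
      simp only [List.nil_append, List.mem_singleton] at hq'
      rw [hq']; exact hq.1
    · simp
  rw [hc, Set.mem_singleton_iff] at h1
  exact flatMap_ne_nil hne (by simp) h1

theorem leftStar_Sq_eq {Q : P → Prop} (h : ∀ q, ¬ Q q) :
    leftStar (Sq wd Good Q) = {[]} := by
  ext s
  rw [Set.mem_singleton_iff]
  constructor
  · intro hs
    obtain ⟨l, h1, -, rfl⟩ := leftStar_Sq_subset Q hs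
    cases l with
    | nil => rfl
    | cons q l => exact absurd (h1 q (by simp)) (h q)
  · rintro rfl
    exact nil_mem_leftStar _

end Abs

end Pool.Agent.EXS
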