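import Pool.Agent.EXS.First
import Pool.Agent.EXS.Seq

namespace Pool.Agent.EXS

open Lt St Pc Pool.Agent.Hhelper75.Star

variable {r : ℕ}

/-- Admissible neighbours. -/
def Good : Pc r → Pc r → Prop
  | tok b, tok b' => ∃ p, Sm b p ∧ Ym b' p
  | _, _ => True

/-- The pieces of the second minimal tail. -/
def Q0 : Pc r → Prop
  | tok b => InW b
  | q => Val q

theorem Val_of_Q0 {q : Pc r} (h : Q0 q) : Val q := by
  cases q <;> trivial

/-- The initial language. -/
def X0 (r : ℕ) : Set (List (Lt r)) := {w | acc i w}

/-- The first minimal tail. -/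
def X1 (r : ℕ) : Set (List (Lt r)) := {w | R i w}

theorem mem_leftStar_X0 (u : List (Lt r)) :
    u ∈ leftStar (X0 r) ↔ u.foldl δ i = i ∨ u.foldl δ i = e := by
  constructor
  · intro h
    have h1 : acc (i : St r) (u ++ [G]) := h [G] rfl
    rw [acc_append, acc_cons, acc_nil] at h1
    revert h1
    cases u.foldl δ i with
    | i => intro _; exact Or.inl rfl
    | e => intro _; exact Or.inr rfl
    | _ => intro h1; exact absurd h1 (by simp [δ, fin])
  · rintro (h | h) a ha
    · show acc (i : St r) (u ++ a)
      rw [acc_append, h]; exact ha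
    · show acc (i : St r) (u ++ a)
      rw [acc_append, h]; exact acc_e_of_i ha

theorem minTail_X0 (r : ℕ) : minTail (X0 r) = X1 r := by
  ext w
  show (acc i w ∧ ¬ _) ↔ R i w
  rw [R_iff]
  constructor
  · rintro ⟨h1, h2⟩
    refine ⟨h1, ?_⟩
    intro u v huv hu hq hv
    exact h2 ⟨u, hu, (mem_leftStar_X0 u).2 hq, v, hv, huv⟩
  · rintro ⟨h1, h2⟩
    refine ⟨h1, ?_⟩
    rintro ⟨u, hu, hq, v, hv, huv⟩
    exact h2 u v huv hu ((mem_leftStar_X0 u).1 hq) hv

theorem H_mem : ([H] : List (Lt r)) ∈ leftStar (X1 r) := fun v hv => (R_H v).2 hv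
theorem A_mem : ([A] : List (Lt r)) ∈ leftStar (X1 r) := fun _ hv => R_A_cons hv
theorem AB_mem : ([A, B] : List (Lt r)) ∈ leftStar (X1 r) := fun _ hv => R_AB_cons hv

theorem R_H_single : R (i : St r) [H] := (R_H []).2 rfl

theorem head_append {s a : List (Lt r)} (hs : s ≠ []) : (s ++ a).head? = s.head? := by
  cases s with
  | nil => exact absurd rfl hs
  | cons _ _ => rfl

theorem head_wd (q : Pc r) (v : List (Lt r)) : (wd q ++ v).head? ≠ some H := by
  cases q <;> simp [wd]

theorem wd_mem_leftStar {q : Pc r} (hq : Val q) {s : List (Lt r)} (hs0 : s ≠ [])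
    (hs : s ∈ leftStar (X1 r)) (hH : s.head? ≠ some H) : wd q ++ s ∈ leftStar (X1 r) := by
  intro v hv
  show R i (wd q ++ s ++ v)
  rw [List.append_assoc, R_wd]
  refine ⟨hq, (R_f _).2 ⟨hs v hv, ?_⟩⟩
  rw [head_append hs0]
  exact hH

/-- The second minimal tail is contained in the set of chains. -/
theorem second_sub : ∀ n : ℕ, ∀ w : List (Lt r), w.length ≤ n → w ∈ minTail (X1 r) →
    w ∈ Sq wd Good (Q0 (r := r)) := by
  intro n
  induction n with
  | zero =>
    intro w hw _
    have : w = [] := List.length_eq_zero_iff.mp (Nat.le_zero.mp hw)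
    subst this
    exact ⟨[], by simp, by simp, rfl⟩
  | succ n ih =>
    intro w hw hmt
    obtain ⟨hX, hk⟩ := hmt
    rcases R_cases hX with rfl | ⟨v, rfl, hv⟩ | ⟨v, rfl, hv⟩ | ⟨v, rfl, hv⟩ | ⟨q, v, hq, rfl, hv⟩
    · exact ⟨[], by simp, by simp, rfl⟩
    · exact absurd ⟨[H], by simp, H_mem, v, hv, rfl⟩ hk
    · exact absurd ⟨[A], by simp, A_mem, v, hv, rfl⟩ hk
    · exact absurd ⟨[A, B], by simp, AB_mem, v, hv, rfl⟩ hk
    · have hv' := (R_f v).1 hv
      have hmt : v ∈ minTail (X1 r) := by
        refine ⟨hv'.1, ?_⟩
        rintro ⟨s, hs0, hs, a, ha, rfl⟩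
        apply hk
        refine ⟨wd q ++ s, by simp [hs0], ?_, a, ha, by rw [List.append_assoc]⟩
        apply wd_mem_leftStar hq hs0 hs
        rw [← head_append hs0]
        exact hv'.2
      have hlen : v.length ≤ n := by
        have h1 : 0 < (wd q).length := List.length_pos_iff.mpr (wd_ne_nil q)
        rw [List.length_append] at hw
        omega
      obtain ⟨l, h1, h2, h3⟩ := ih v hlen hmt
      have hQ : Q0 q := by
        cases q with
        | tok b =>
          by_contra hc
          apply hk
          refine ⟨[A], by simp, A_mem, wd (g1 b) ++ v, ?_, rfl⟩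
          exact (R_wd (g1 b) v).2 ⟨hc, hv⟩
        | _ => exact hq
      refine ⟨q :: l, ?_, ?_, by rw [List.flatMap_cons, h3]⟩
      · intro q' hq'
        rcases List.mem_cons.1 hq' with rfl | h
        · exact hQ
        · exact h1 q' h
      · cases l with
        | nil => simp
        | cons q' l =>
          rw [List.isChain_cons_cons]
          refine ⟨?_, h2⟩
          cases q with
          | tok b =>
            cases q' with
            | tok b' =>
              by_contra hc
              apply hk
              rw [List.flatMap_cons] at h3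
              have h4 : R f (l.flatMap wd) := by
                have := hv'.1
                rw [h3, R_wd] at this
                exact this.2
              refine ⟨[A, B], by simp, AB_mem, wd (g2 b b') ++ l.flatMap wd, ?_, ?_⟩
              · refine (R_wd (g2 b b') _).2 ⟨?_, h4⟩
                intro p hp hy
                exact hc ⟨p, hp, hy⟩
              · rw [h3]
                simp [wd]
            | _ => trivial
          | _ => trivial

theorem count_bl (b : Blk r) : (bl b).count D = 0 := by
  induction b with
  | nil => rfl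
  | cons t b ih => simp [ih]

/-- A proper prefix of a piece has fewer letters `D`. -/
theorem count_prefix {q : Pc r} {s c : List (Lt r)} (h : wd q = s ++ c) (hc : c ≠ []) :
    s.count D < (wd q).count D := by
  have h1 : ∃ c', wd q = s ++ (c' ++ [D]) := by
    have h2 : ∃ z, wd q = z ++ [D] := by
      cases q with
      | tok b => exact ⟨A :: B :: E :: bl b, by simp [wd]⟩
      | g1 b => exact ⟨B :: E :: bl b, by simp [wd]⟩
      | g2 b b' => exact ⟨E :: (bl b ++ D :: A :: B :: E :: bl b'), by simp [wd]⟩
      | g3 p y b b' => exact ⟨x p true y :: (bl b ++ D :: A :: B :: E :: bl b'), by simp [wd]⟩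
    obtain ⟨z, hz⟩ := h2
    rcases List.eq_nil_or_concat c with h3 | ⟨c', a, h3⟩
    · exact absurd h3 hc
    · rw [List.concat_eq_append] at h3
      rw [h, h3, ← List.append_assoc] at hz
      have := List.append_inj' hz rfl
      refine ⟨c', ?_⟩
      rw [h, h3, this.2]
  obtain ⟨c', hc'⟩ := h1
  rw [hc', List.count_append, List.count_append]
  simp

theorem PB_count {Φ : Blk r → List (Lt r) → Prop} {w : List (Lt r)} (h : PB Φ w) :
    1 ≤ w.count D := by
  obtain ⟨b, v, rfl, -⟩ := h
  rw [List.count_append, List.count_cons_self]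
  omega

/-- The only proper prefixes of pieces which are not excluded. -/
theorem prefix_cases {q : Pc r} {s c : List (Lt r)} (h : wd q = s ++ c) (hc : c ≠ [])
    (hs : s ≠ []) (hR : R (i : St r) (s ++ [H])) :
    ∃ b, q = tok b ∧ (s = [A] ∨ s = [A, B]) := by
  have hcount := count_prefix h hc
  cases q with
  | tok b =>
    refine ⟨b, rfl, ?_⟩
    have h0 : (wd (tok b)).count D = 1 := by simp [wd, count_bl]
    match s, hs with
    | a1 :: s1, _ =>
      have ha1 : a1 = A := by
        simp only [wd, List.cons_append, List.cons.injEq] at h; exact h.1.symm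
      subst ha1
      match s1 with
      | [] => exact Or.inl rfl
      | a2 :: s2 =>
        have ha2 : a2 = B := by
          simp only [wd, List.cons_append, List.cons.injEq] at h; exact h.2.1.symm
        subst ha2
        match s2 with
        | [] => exact Or.inr rfl
        | a3 :: s3 =>
          exfalso
          have ha3 : a3 = E := by
            simp only [wd, List.cons_append, List.cons.injEq] at h; exact h.2.2.1.symm
          subst ha3
          simp only [List.cons_append] at hR
          rw [R_step (q' := m1) rfl _ (by simp) (by simp),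
            R_step (q' := m2) rfl _ (by simp) (by simp),
            R_step (q' := c1) rfl _ (by simp) (by simp), R_c1] at hR
          have h2 := PB_count hR
          rw [h0] at hcount
          rw [List.count_append] at h2
          simp only [List.count_cons_of_ne (show A ≠ (D : Lt r) by simp),
            List.count_cons_of_ne (show B ≠ (D : Lt r) by simp),
            List.count_cons_of_ne (show E ≠ (D : Lt r) by simp),
            List.count_cons_of_ne (show H ≠ (D : Lt r) by simp), List.count_nil] at hcount h2
          omega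
  | g1 b =>
    exfalso
    have h0 : (wd (g1 b)).count D = 1 := by simp [wd, count_bl]
    match s, hs with
    | a1 :: s1, _ =>
      have ha1 : a1 = B := by
        simp only [wd, List.cons_append, List.cons.injEq] at h; exact h.1.symm
      subst ha1
      rw [List.cons_append] at hR
      obtain ⟨b', u, -, h2, -⟩ := R_B_cases hR
      have h3 : (s1 ++ [H]).count D = (E :: (bl b' ++ D :: u)).count D := by rw [h2]
      rw [h0] at hcount
      simp [count_bl] at hcount h3
      omega
  | g2 b b' =>
    exfalso
    have h0 : (wd (g2 b b')).count D = 2 := by simp [wd, count_bl]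
    match s, hs with
    | a1 :: s1, _ =>
      have ha1 : a1 = E := by
        simp only [wd, List.cons_append, List.cons.injEq] at h; exact h.1.symm
      subst ha1
      rw [List.cons_append] at hR
      obtain ⟨b1, b2, u, -, h2, -⟩ := R_E_cases hR
      have h3 : (s1 ++ [H]).count D = (bl b1 ++ D :: A :: B :: E :: (bl b2 ++ D :: u)).count D := by
        rw [h2]
      rw [h0] at hcount
      simp [count_bl] at hcount h3
      omega
  | g3 p y b b' =>
    exfalso
    have h0 : (wd (g3 p y b b')).count D = 2 := by simp [wd, count_bl]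
    match s, hs with
    | a1 :: s1, _ =>
      have ha1 : a1 = x p true y := by
        simp only [wd, List.cons_append, List.cons.injEq] at h; exact h.1.symm
      subst ha1
      rw [List.cons_append, R_step (q' := P0 p) rfl _ (by simp) (by simp), R_P0] at hR
      obtain ⟨b1, v, h2, h4⟩ := hR
      rw [R_P1] at h4
      obtain ⟨u, rfl, h4⟩ := h4
      rw [R_P4] at h4
      obtain ⟨b2, z, rfl, -, -⟩ := h4
      have h3 : (s1 ++ [H]).count D = (bl b1 ++ D :: A :: B :: E :: (bl b2 ++ D :: z)).count D := by
        rw [h2]
      rw [h0] at hcount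
      simp [count_bl] at hcount h3
      omega

theorem R_f_flatMap {l : List (Pc r)} (h : ∀ q ∈ l, Q0 q) : R (f : St r) (l.flatMap wd) := by
  induction l with
  | nil => rfl
  | cons q l ih =>
    rw [List.flatMap_cons, R_f]
    exact ⟨(R_wd q _).2 ⟨Val_of_Q0 (h q (by simp)), ih fun q' hq' => h q' (by simp [hq'])⟩,
      head_wd q _⟩

theorem parse_bl {b b' : Blk r} {u v : List (Lt r)} (h : bl b ++ D :: u = bl b' ++ D :: v) :
    b = b' ∧ u = v := by
  have h1 : PB (fun c w => c = b' ∧ w = v) (bl b' ++ D :: v) := (PB_parse _ _ _).2 ⟨rfl, rfl⟩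
  rw [← h, PB_parse] at h1
  exact h1

theorem wd_inj (q q' : Pc r) (u v : List (Lt r)) (h : wd q ++ u = wd q' ++ v) :
    q = q' ∧ u = v := by
  cases q <;> cases q' <;>
    simp only [wd, List.cons_append, List.append_assoc, List.nil_append, List.cons.injEq,
      reduceCtorEq, false_and, true_and, Lt.x.injEq] at h
  · obtain ⟨rfl, rfl⟩ := parse_bl h; exact ⟨rfl, rfl⟩
  · obtain ⟨rfl, rfl⟩ := parse_bl h; exact ⟨rfl, rfl⟩
  · obtain ⟨rfl, h'⟩ := parse_bl h
    simp only [List.cons.injEq, true_and] at h'
    obtain ⟨rfl, rfl⟩ := parse_bl h'; exact ⟨rfl, rfl⟩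
  · obtain ⟨⟨rfl, rfl⟩, h⟩ := h
    obtain ⟨rfl, h'⟩ := parse_bl h
    simp only [List.cons.injEq, true_and] at h'
    obtain ⟨rfl, rfl⟩ := parse_bl h'; exact ⟨rfl, rfl⟩

/-- No chain has a nonempty prefix in the maximal left star with rest in the language. -/
theorem not_killed : ∀ l : List (Pc r), (∀ q ∈ l, Q0 q) → l.IsChain Good →
    ∀ s a : List (Lt r), s ≠ [] → s ∈ leftStar (X1 r) → R (i : St r) a →
      s ++ a ≠ l.flatMap wd := by
  intro l
  induction l with
  | nil =>
    intro _ _ s a hs _ _ h
    simp only [List.flatMap_nil, List.append_eq_nil_iff] at h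
    exact hs h.1
  | cons q l ih =>
    intro hQ hch s a hs0 hs ha h
    have hf : R (f : St r) (l.flatMap wd) := R_f_flatMap fun q' hq' => hQ q' (by simp [hq'])
    have hH : R (i : St r) (s ++ [H]) := hs [H] R_H_single
    -- the case where the piece is a prefix of `s`
    have case2 : ∀ c, s = wd q ++ c → l.flatMap wd = c ++ a → False := by
      intro c hc1 hc2
      by_cases hc0 : c = []
      · subst hc0
        rw [hc1, List.append_nil, R_wd, R_f] at hH
        exact hH.2.2 rfl
      · refine ih (fun q' hq' => hQ q' (by simp [hq'])) (List.IsChain.of_cons hch) c a hc0 ?_ ha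
          hc2.symm
        intro v hv
        have h1 := hs v hv
        rw [hc1, List.append_assoc] at h1
        exact ((R_f _).1 ((R_wd q _).1 h1).2).1
    rw [List.flatMap_cons, List.append_eq_append_iff] at h
    rcases h with ⟨c, hc1, hc2⟩ | ⟨c, hc1, hc2⟩
    · by_cases hc0 : c = []
      · subst hc0
        refine case2 [] (by simpa using hc1.symm) ?_
        simpa using hc2.symm
      · obtain ⟨b, rfl, hs'⟩ := prefix_cases hc1 hc0 hs0 hH
        rcases hs' with rfl | rfl
        · have h1 : a = wd (g1 b) ++ l.flatMap wd := by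
            rw [hc2]
            congr 1
            simp only [wd, List.cons_append, List.nil_append, List.cons.injEq, true_and] at hc1
            exact hc1.symm
          rw [h1, R_wd] at ha
          exact ha.1 (hQ (tok b) (by simp))
        · have h1 : a = E :: (bl b ++ D :: l.flatMap wd) := by
            rw [hc2]
            simp only [wd, List.cons_append, List.nil_append, List.cons.injEq, true_and] at hc1
            rw [← hc1]
            simp
          rw [h1] at ha
          obtain ⟨b1, b2, u, hd, h2, h3⟩ := R_E_cases ha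
          obtain ⟨rfl, h4⟩ := parse_bl h2
          cases l with
          | nil => simp at h4
          | cons q' l =>
            rw [List.flatMap_cons] at h4
            have h5 : wd q' ++ l.flatMap wd = wd (tok b2) ++ u := by
              rw [h4]; simp [wd]
            obtain ⟨rfl, -⟩ := wd_inj _ _ _ _ h5
            rw [List.isChain_cons_cons] at hch
            obtain ⟨p, hp1, hp2⟩ := hch.1
            exact hd p hp1 hp2
    · exact case2 c hc1 hc2

theorem minTail_X1 (r : ℕ) : minTail (X1 r) = Sq wd Good (Q0 (r := r)) := by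
  apply Set.Subset.antisymm
  · intro w hw
    exact second_sub w.length w le_rfl hw
  · rintro _ ⟨l, h1, h2, rfl⟩
    refine ⟨((R_f _).1 (R_f_flatMap h1)).1, ?_⟩
    rintro ⟨s, hs0, hs, a, ha, h⟩
    exact not_killed l h1 h2 s a hs0 hs ha h

end Pool.Agent.EXS
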